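import Pool.Agent.Helper84.HD.St

/-!
# Project HD (MP_8be7de_nt), module AA: a large prime factor can be removed
-/

set_option autoImplicit false

namespace Pool.Agent.Helper90.HD

open Finset Filter Topology Pool.Agent.Helper84.HD
open Pool.Agent.Helper4.DE (C Lg LogDens IsMultClosed t D Z)

/-- the constant of Chebyshev -/
private noncomputable def K0 : ℝ := 2 * Real.log 4 + 2

private lemma K0_pos : 0 < K0 := by
  unfold K0
  have : 0 < Real.log 4 := Real.log_pos (by norm_num)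
  linarith

private lemma pi_le (x : ℝ) (hx : 1 < x) : (Nat.primeCounting ⌊x⌋₊ : ℝ) ≤ K0 * (x / Real.log x) := by
  have h := Chebyshev.pi_le_log4_mul_div hx
  have hx0 : 0 < x := by linarith
  have hl : 0 < Real.log x := Real.log_pos hx
  have hs : 0 < √x := Real.sqrt_pos.2 hx0
  have e1 : Real.log √x = Real.log x / 2 := Real.log_sqrt hx0.le
  have h1 : Real.log x ≤ 2 * √x := by
    have h2 := Real.log_le_sub_one_of_pos hs
    rw [e1] at h2
    linarith
  have h3 : √x ≤ 2 * (x / Real.log x) := by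
    have h4 : √x * √x = x := Real.mul_self_sqrt hx0.le
    rw [← mul_div_assoc, le_div_iff₀ hl]
    nlinarith
  have h5 : Real.log 4 * x / Real.log √x = 2 * Real.log 4 * (x / Real.log x) := by
    rw [e1]
    field_simp
  rw [h5] at h
  unfold K0
  calc (Nat.primeCounting ⌊x⌋₊ : ℝ) ≤ 2 * Real.log 4 * (x / Real.log x) + √x := h
    _ ≤ 2 * Real.log 4 * (x / Real.log x) + 2 * (x / Real.log x) := by linarith
    _ = _ := by ring

private lemma card_primes (k : ℕ) :
    (((range (k + 1)).filter Nat.Prime).card : ℝ) = Nat.primeCounting k := by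
  rw [Nat.primeCounting, Nat.primeCounting', Nat.count_eq_card_filter_range]

theorem hAA : StAA := by
  classical
  refine ⟨K0, K0_pos, ?_⟩
  intro S S' κ hκ hκ1 hS'
  have hlarge : ∀ᶠ N : ℕ in atTop, (1 : ℝ) < (N : ℝ) ^ κ := by
    have h1 := (tendsto_rpow_atTop hκ).comp tendsto_natCast_atTop_atTop
    exact h1.eventually_gt_atTop 1
  filter_upwards [hlarge, eventually_ge_atTop 2] with N hN hN2
  have hN0 : (0 : ℝ) < N := by
    have : 0 < N := by omega
    exact_mod_cast this
  have hlogN : 0 < Real.log N := Real.log_pos (by exact_mod_cast (by omega : 1 < N))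
  set A := {n : ℕ | n ∉ S' ∧ ∃ P : ℕ, P.Prime ∧ (N : ℝ) ^ κ < P ∧ P ∣ n ∧ n / P ∈ S} with hA
  set M := (Ioc 0 N).filter (fun m => m ∈ S \ S' ∧ (N : ℝ) ^ κ < N / m) with hM
  have hsub : (Ioc 0 N).filter (· ∈ A) ⊆ M.biUnion (fun m =>
      ((range (⌊(N : ℝ) / m⌋₊ + 1)).filter Nat.Prime).image (fun P => P * m)) := by
    intro n hn
    rw [Finset.mem_filter, Finset.mem_Ioc] at hn
    obtain ⟨⟨hn0, hnN⟩, hnA⟩ := hn
    obtain ⟨hnS', P, hP, hPN, hPn, hnP⟩ := hnA
    have hP0 : 0 < P := hP.pos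
    have hm0 : 0 < n / P := Nat.div_pos (Nat.le_of_dvd hn0 hPn) hP0
    have hnm : P * (n / P) = n := Nat.mul_div_cancel' hPn
    have hmR : (0 : ℝ) < ((n / P : ℕ) : ℝ) := by exact_mod_cast hm0
    have hPle : (P : ℝ) ≤ N / ((n / P : ℕ) : ℝ) := by
      rw [le_div_iff₀ hmR]
      have : P * (n / P) ≤ N := by rw [hnm]; exact hnN
      exact_mod_cast this
    rw [Finset.mem_biUnion]
    refine ⟨n / P, ?_, ?_⟩
    · rw [hM, Finset.mem_filter, Finset.mem_Ioc]
      refine ⟨⟨hm0, (Nat.div_le_self n P).trans hnN⟩, ⟨hnP, ?_⟩, lt_of_lt_of_le hPN hPle⟩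
      intro hmS'
      apply hnS'
      have := hS' _ hmS' P hP0
      rwa [mul_comm, hnm] at this
    · rw [Finset.mem_image]
      refine ⟨P, ?_, hnm⟩
      rw [Finset.mem_filter, Finset.mem_range]
      exact ⟨Nat.lt_succ_of_le (Nat.le_floor hPle), hP⟩
  have hC : C A N ≤ ∑ m ∈ M, K0 * ((N / m) / (κ * Real.log N)) := by
    have h1 : C A N = (((Ioc 0 N).filter (· ∈ A)).card : ℝ) := by
      unfold C
      congr!
    rw [h1]
    have h2 : ((Ioc 0 N).filter (· ∈ A)).card ≤
        ∑ m ∈ M, ((range (⌊(N : ℝ) / m⌋₊ + 1)).filter Nat.Prime).card := by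
      refine (Finset.card_le_card hsub).trans (Finset.card_biUnion_le.trans ?_)
      exact Finset.sum_le_sum fun m _ => Finset.card_image_le
    have h3 : (((Ioc 0 N).filter (· ∈ A)).card : ℝ) ≤
        ∑ m ∈ M, (((range (⌊(N : ℝ) / m⌋₊ + 1)).filter Nat.Prime).card : ℝ) := by
      exact_mod_cast h2
    refine h3.trans (Finset.sum_le_sum fun m hm => ?_)
    rw [card_primes]
    rw [hM, Finset.mem_filter, Finset.mem_Ioc] at hm
    obtain ⟨⟨hm0, _⟩, _, hmN⟩ := hm
    have hmR : (0 : ℝ) < (m : ℝ) := by exact_mod_cast hm0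
    have hx1 : (1 : ℝ) < (N : ℝ) / m := hN.trans hmN
    refine (pi_le _ hx1).trans ?_
    apply mul_le_mul_of_nonneg_left _ K0_pos.le
    have hlog : κ * Real.log N ≤ Real.log ((N : ℝ) / m) := by
      rw [← Real.log_rpow hN0]
      exact Real.log_le_log (by linarith) hmN.le
    exact div_le_div_of_nonneg_left (by linarith) (by positivity) hlog
  refine hC.trans ?_
  have hL : ∑ m ∈ M, (1 : ℝ) / m ≤ Lg (S \ S') N := by
    unfold Lg
    apply Finset.sum_le_sum_of_subset_of_nonneg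
    · intro m hm
      rw [hM, Finset.mem_filter] at hm
      simp only [Finset.mem_filter]
      exact ⟨hm.1, hm.2.1⟩
    · intro m _ _
      positivity
  have e : ∑ m ∈ M, K0 * (((N : ℝ) / m) / (κ * Real.log N)) =
      K0 / κ * N * ((∑ m ∈ M, (1 : ℝ) / m) / Real.log N) := by
    rw [Finset.sum_div, Finset.mul_sum]
    refine Finset.sum_congr rfl fun m hm => ?_
    rw [hM, Finset.mem_filter, Finset.mem_Ioc] at hm
    have hmR : (m : ℝ) ≠ 0 := by
      have : m ≠ 0 := by omega
      exact_mod_cast this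
    field_simp
  rw [e]
  have hK : 0 ≤ K0 / κ * N := mul_nonneg (div_nonneg K0_pos.le hκ.le) hN0.le
  exact mul_le_mul_of_nonneg_left (div_le_div_of_nonneg_right hL hlogN.le) hK

end Pool.Agent.Helper90.HD
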